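import Mathlib

/-!
# PHC/KeyA: places `eps = 0` with residue field `F₀`

`IsPlace F₀ O eps`: `O` is a valuation ring of `F` which contains the field `F₀`, `eps` is a nonzero element of the maximal ideal, and
`F` is algebraic over `F₀(eps)`.
-/

set_option autoImplicit false

noncomputable section

open Polynomial

namespace Pool.Agent.PHC

universe u v

variable {F₀ : Type u} {F : Type v} [Field F₀] [Field F] [Algebra F₀ F]

/-- `O` is a valuation ring of `F` over the subfield `F₀`, `eps` is in its maximal ideal, `F` is algebraic over `F₀(eps)`. -/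
structure IsPlace (F₀ : Type u) {F : Type v} [Field F₀] [Field F] [Algebra F₀ F] (O : ValuationSubring F) (eps : F) :
    Prop where
  mem : ∀ a : F₀, algebraMap F₀ F a ∈ O
  ne : eps ≠ 0
  lt : O.valuation eps < 1
  alg : Algebra.IsAlgebraic (Algebra.adjoin F₀ {eps}) F

variable {O : ValuationSubring F} {eps : F}

private theorem ka_poly (y : Algebra.adjoin F₀ {eps}) : ∃ p : F₀[X], aeval eps p = (y : F) := by
  have h : (y : F) ∈ (aeval eps : F₀[X] →ₐ[F₀] F).range := by
    rw [← Algebra.adjoin_singleton_eq_range_aeval]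
    exact y.2
  exact h

private theorem ka_mul {Γ : Type*} [LinearOrderedCommGroupWithZero Γ] {a b : Γ} (ha : a ≤ 1) (hb : b < 1) : a * b < 1 :=
  (mul_le_of_le_one_left' ha).trans_lt hb

theorem IsPlace.val_one (h : IsPlace F₀ O eps) {a : F₀} (ha : a ≠ 0) : O.valuation (algebraMap F₀ F a) = 1 := by
  have h1 : O.valuation (algebraMap F₀ F a) ≤ 1 := (O.valuation_le_one_iff _).2 (h.mem a)
  have h2 : O.valuation (algebraMap F₀ F a⁻¹) ≤ 1 := (O.valuation_le_one_iff _).2 (h.mem a⁻¹)
  have h3 : O.valuation (algebraMap F₀ F a) * O.valuation (algebraMap F₀ F a⁻¹) = 1 := by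
    rw [← map_mul, ← map_mul, mul_inv_cancel₀ ha, map_one, map_one]
  refine le_antisymm h1 ?_
  rw [← h3]
  exact mul_le_of_le_one_right' h2

theorem IsPlace.aeval_mem (h : IsPlace F₀ O eps) (p : F₀[X]) : aeval eps p ∈ O := by
  rw [aeval_eq_sum_range]
  refine sum_mem fun i _ => ?_
  rw [Algebra.smul_def]
  exact mul_mem (h.mem _) (pow_mem ((O.valuation_le_one_iff _).1 h.lt.le) _)

theorem IsPlace.aeval_sub (h : IsPlace F₀ O eps) (p : F₀[X]) :
    O.valuation (aeval eps p - algebraMap F₀ F (p.coeff 0)) < 1 := by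
  have h1 : aeval eps p = aeval eps p.divX * eps + algebraMap F₀ F (p.coeff 0) := by
    conv_lhs => rw [← divX_mul_X_add p]
    rw [map_add, map_mul, aeval_X, aeval_C]
  rw [h1, add_sub_cancel_right, map_mul]
  exact ka_mul ((O.valuation_le_one_iff _).2 (h.aeval_mem _)) h.lt

theorem IsPlace.aeval_form (h : IsPlace F₀ O eps) (n : ℕ) :
    ∀ p : F₀[X], p.natDegree ≤ n → p ≠ 0 → ∃ (j : ℕ) (w : F), aeval eps p = eps ^ j * w ∧ O.valuation w = 1 := by
  induction n with
  | zero =>
    intro p hp h0
    obtain ⟨c, rfl⟩ := natDegree_eq_zero.1 (Nat.le_zero.1 hp)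
    refine ⟨0, algebraMap F₀ F c, by rw [aeval_C, pow_zero, one_mul], h.val_one ?_⟩
    rintro rfl
    exact h0 (map_zero C)
  | succ n ih =>
    intro p hp h0
    by_cases hc : p.coeff 0 = 0
    · have h1 : p = p.divX * X := by
        conv_lhs => rw [← divX_mul_X_add p]
        rw [hc, map_zero, add_zero]
      have h2 : p.divX ≠ 0 := by
        intro h2
        rw [h2, zero_mul] at h1
        exact h0 h1
      obtain ⟨j, w, h3, h4⟩ := ih p.divX (by rw [natDegree_divX_eq_natDegree_tsub_one]; omega) h2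
      refine ⟨j + 1, w, ?_, h4⟩
      rw [h1, map_mul, aeval_X, h3]
      ring
    · refine ⟨0, aeval eps p, by rw [pow_zero, one_mul], ?_⟩
      have h1 := h.aeval_sub p
      have h2 := h.val_one hc
      have h3 : aeval eps p = algebraMap F₀ F (p.coeff 0) + (aeval eps p - algebraMap F₀ F (p.coeff 0)) := by ring
      rw [h3, Valuation.map_add_eq_of_lt_left _ (by rw [h2]; exact h1), h2]

/-- the order of vanishing in `eps` is bounded -/
theorem IsPlace.arch (h : IsPlace F₀ O eps) (x : F) : ∃ N : ℕ, eps ^ N * x ∈ O := by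
  have h1 : IsAlgebraic (Algebra.adjoin F₀ {eps}) x := h.alg.isAlgebraic x
  obtain ⟨y, hy, hint⟩ := h1.exists_integral_multiple
  obtain ⟨p, hp⟩ := ka_poly y
  have hp0 : p ≠ 0 := by
    rintro rfl
    rw [map_zero] at hp
    exact hy (Subtype.ext hp.symm)
  obtain ⟨j, w, hw, hw1⟩ := h.aeval_form p.natDegree p le_rfl hp0
  have h2 : (y • x : F) ∈ O := by
    have h3 : IsIntegral O (y • x : F) := by
      obtain ⟨q, hq, hq1⟩ := hint
      let φ : Algebra.adjoin F₀ {eps} →+* O :=
        { toFun := fun z => ⟨z, by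
            obtain ⟨r, hr⟩ := ka_poly z
            rw [← hr]
            exact h.aeval_mem r⟩
          map_one' := rfl
          map_mul' := fun _ _ => rfl
          map_zero' := rfl
          map_add' := fun _ _ => rfl }
      refine ⟨q.map φ, hq.map φ, ?_⟩
      rw [eval₂_map]
      exact hq1
    obtain ⟨z, hz⟩ := IsIntegrallyClosed.isIntegral_iff.1 h3
    rw [← hz]
    exact z.2
  refine ⟨j, ?_⟩
  have h4 : (y • x : F) = w * (eps ^ j * x) := by
    rw [Algebra.smul_def]
    show (y : F) * x = _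
    rw [← hp, hw]
    ring
  have hw0 : w ≠ 0 := by
    rintro rfl
    simp at hw1
  have h5 : eps ^ j * x = w⁻¹ * (y • x : F) := by
    rw [h4, ← mul_assoc, inv_mul_cancel₀ hw0, one_mul]
  rw [h5]
  refine mul_mem ((O.valuation_le_one_iff _).1 ?_) h2
  rw [map_inv₀, hw1, inv_one]

/-- a polynomial relation over `F₀[X]` -/
theorem IsPlace.exists_rel (h : IsPlace F₀ O eps) (x : F) :
    ∃ p : F₀[X][X], p ≠ 0 ∧ eval₂ (aeval eps : F₀[X] →ₐ[F₀] F).toRingHom x p = 0 := by
  obtain ⟨q, hq0, hq⟩ := h.alg.isAlgebraic x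
  let φ : F₀[X] →+* Algebra.adjoin F₀ {eps} :=
    { toFun := fun p => ⟨aeval eps p, by
        rw [Algebra.adjoin_singleton_eq_range_aeval]
        exact ⟨p, rfl⟩⟩
      map_one' := Subtype.ext (map_one (aeval eps))
      map_mul' := fun a b => Subtype.ext (map_mul (aeval eps) a b)
      map_zero' := Subtype.ext (map_zero (aeval eps))
      map_add' := fun a b => Subtype.ext (map_add (aeval eps) a b) }
  have hφ : Function.Surjective φ := by
    intro y
    obtain ⟨p, hp⟩ := ka_poly y
    exact ⟨p, Subtype.ext hp⟩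
  obtain ⟨p, rfl⟩ := Polynomial.map_surjective φ hφ q
  refine ⟨p, ?_, ?_⟩
  · rintro rfl
    exact hq0 (Polynomial.map_zero φ)
  · rw [aeval_def, eval₂_map] at hq
    exact hq

/-- the residue field is `F₀` -/
theorem IsPlace.residue [IsAlgClosed F₀] (h : IsPlace F₀ O eps) {x : F} (hx : x ∈ O) :
    ∃ a : F₀, O.valuation (x - algebraMap F₀ F a) < 1 := by
  obtain ⟨p, hp0, hp⟩ := h.exists_rel x
  -- divide by the power of `X`
  obtain ⟨n, q, hq, hpq⟩ := WfDvdMonoid.max_power_factor hp0 (x := (C X : F₀[X][X]))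
    (prime_C_iff.2 prime_X).irreducible
  have hq0 : eval₂ (aeval eps : F₀[X] →ₐ[F₀] F).toRingHom x q = 0 := by
    rw [hpq, eval₂_mul, eval₂_pow, eval₂_C] at hp
    rcases mul_eq_zero.1 hp with h2 | h2
    · exfalso
      have h3 : ((aeval eps : F₀[X] →ₐ[F₀] F).toRingHom X : F) = eps := aeval_X eps
      rw [h3] at h2
      exact pow_ne_zero n h.ne h2
    · exact h2
  rw [C_dvd_iff_dvd_coeff] at hq
  push Not at hq
  obtain ⟨i, hi⟩ := hq
  rw [X_dvd_iff] at hi
  set q' : F₀[X] := q.map (constantCoeff : F₀[X] →+* F₀) with hq'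
  have hq'0 : q' ≠ 0 := by
    intro h2
    have h3 : q'.coeff i = 0 := by rw [h2, coeff_zero]
    rw [hq', coeff_map] at h3
    exact hi h3
  have h2 : O.valuation (aeval x q') < 1 := by
    have h3 : aeval x q' = -∑ i ∈ Finset.range (q.natDegree + 1),
        (aeval eps (q.coeff i) - algebraMap F₀ F ((q.coeff i).coeff 0)) * x ^ i := by
      have h4 : aeval x q' = ∑ i ∈ Finset.range (q.natDegree + 1), algebraMap F₀ F ((q.coeff i).coeff 0) * x ^ i := by
        rw [aeval_def, eval₂_eq_sum_range' _ (Nat.lt_succ_of_le (natDegree_map_le (f := constantCoeff) (p := q)))]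
        refine Finset.sum_congr rfl fun i _ => ?_
        rw [coeff_map]
        rfl
      have h5 : eval₂ (aeval eps : F₀[X] →ₐ[F₀] F).toRingHom x q =
          ∑ i ∈ Finset.range (q.natDegree + 1), aeval eps (q.coeff i) * x ^ i := by
        rw [eval₂_eq_sum_range]
        rfl
      rw [h5] at hq0
      simp only [sub_mul, Finset.sum_sub_distrib]
      rw [hq0, h4]
      ring
    rw [h3, Valuation.map_neg]
    refine Valuation.map_sum_lt _ one_ne_zero fun i _ => ?_
    rw [map_mul]
    rw [mul_comm]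
    exact ka_mul ((O.valuation_le_one_iff _).2 (pow_mem hx i)) (h.aeval_sub _)
  -- split
  have hs : q'.Splits := IsAlgClosed.splits q'
  have h3 : aeval x q' = algebraMap F₀ F q'.leadingCoeff * (q'.roots.map fun a => x - algebraMap F₀ F a).prod := by
    conv_lhs => rw [hs.eq_prod_roots]
    rw [map_mul, aeval_C, map_multiset_prod, Multiset.map_map]
    congr 2
    refine Multiset.map_congr rfl fun a _ => ?_
    simp
  rw [h3, map_mul, h.val_one (leadingCoeff_ne_zero.2 hq'0), one_mul] at h2
  by_contra hc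
  push Not at hc
  have h4 : ∀ s : Multiset F₀, 1 ≤ O.valuation (s.map fun a => x - algebraMap F₀ F a).prod := by
    intro s
    induction s using Multiset.induction_on with
    | empty => simp
    | cons a s ih =>
      rw [Multiset.map_cons, Multiset.prod_cons, map_mul]
      exact one_le_mul_of_one_le_of_one_le (hc a) ih
  exact absurd h2 (not_lt.2 (h4 _))

end Pool.Agent.PHC
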