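import Pool.Agent.PHC.KeyA

/-!
# PHC/KeyB: discrete valuation rings in a place
-/

set_option autoImplicit false

noncomputable section

open Polynomial

namespace Pool.Agent.PHC

universe u v

variable {F₀ : Type u} {F : Type v} [Field F₀] [Field F] [Algebra F₀ F] {O : ValuationSubring F} {eps : F}

private theorem kb_int {R : Type*} [CommRing R] [Algebra R F] (hR : ∀ r : R, algebraMap R F r ∈ O) {x : F}
    (hx : IsIntegral R x) : x ∈ O := by
  have h3 : IsIntegral O x := by
    obtain ⟨q, hq, hq1⟩ := hx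
    let φ : R →+* O :=
      { toFun := fun z => ⟨algebraMap R F z, hR z⟩
        map_one' := Subtype.ext (map_one _)
        map_mul' := fun _ _ => Subtype.ext (map_mul _ _ _)
        map_zero' := Subtype.ext (map_zero _)
        map_add' := fun _ _ => Subtype.ext (map_add _ _ _) }
    refine ⟨q.map φ, hq.map φ, ?_⟩
    rw [eval₂_map]
    exact hq1
  obtain ⟨z, hz⟩ := IsIntegrallyClosed.isIntegral_iff.1 h3
  rw [← hz]
  exact z.2

/-- in a Dedekind domain: every element of the fraction field or its inverse is a fraction with denominator outside of `q` -/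
private theorem kb_frac {B M : Type*} [CommRing B] [IsDedekindDomain B] [Field M] [Algebra B M]
    [IsFractionRing B M] (q : Ideal B) [hqp : q.IsPrime] (hq : q ≠ ⊥) (x : M) :
    (∃ y z : B, z ∉ q ∧ x * algebraMap B M z = algebraMap B M y) ∨
      ∃ y z : B, z ∉ q ∧ x⁻¹ * algebraMap B M z = algebraMap B M y := by
  have hdvr : IsDiscreteValuationRing (Localization.AtPrime q) :=
    IsLocalization.AtPrime.isDiscreteValuationRing_of_dedekind_domain B hq _
  have hle : q.primeCompl ≤ nonZeroDivisors B := q.primeCompl_le_nonZeroDivisors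
  let f : Localization.AtPrime q →+* M := IsLocalization.lift (M := q.primeCompl) (g := algebraMap B M) (by
    intro y
    exact IsLocalization.map_units M (⟨y, hle y.2⟩ : nonZeroDivisors B))
  let _ : Algebra (Localization.AtPrime q) M := f.toAlgebra
  have hst : IsScalarTower B (Localization.AtPrime q) M := IsScalarTower.of_algebraMap_eq (fun r => by
    show _ = f (algebraMap B _ r)
    rw [IsLocalization.lift_eq])
  have hfr : IsFractionRing (Localization.AtPrime q) M :=
    IsFractionRing.isFractionRing_of_isDomain_of_isLocalization q.primeCompl _ _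
  have key : ∀ x : M, IsLocalization.IsInteger (Localization.AtPrime q) x →
      ∃ y z : B, z ∉ q ∧ x * algebraMap B M z = algebraMap B M y := by
    rintro _ ⟨t, rfl⟩
    obtain ⟨⟨y, z⟩, hyz⟩ := IsLocalization.surj q.primeCompl t
    refine ⟨y, z, z.2, ?_⟩
    have h1 := congrArg (algebraMap (Localization.AtPrime q) M) hyz
    rw [map_mul, ← IsScalarTower.algebraMap_apply, ← IsScalarTower.algebraMap_apply] at h1
    exact h1
  rcases ValuationRing.isInteger_or_isInteger (Localization.AtPrime q) x with h | h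
  · exact Or.inl (key _ h)
  · exact Or.inr (key _ h)

theorem IsPlace.exists_dvr [CharZero F₀] (h : IsPlace F₀ O eps) {b : F} (hb : b ∈ O) :
    ∃ (V : Subring F) (p w : F) (e : ℕ) (S : Finset F),
      (∀ a : F₀, algebraMap F₀ F a ∈ V) ∧ b ∈ V ∧ (∀ y ∈ V, y ∈ O) ∧ p ∈ V ∧ w ∈ V ∧ O.valuation w = 1 ∧
      eps = p ^ e * w ∧ (∀ y ∈ V, O.valuation y < 1 → ∃ z ∈ V, y = p * z) ∧
      (∀ s ∈ S, s ∈ O) ∧
      ∀ y ∈ V, ∃ x ∈ Submodule.span (Algebra.adjoin F₀ {eps}) (S : Set F),
        ∃ z ∈ Submodule.span (Algebra.adjoin F₀ {eps}) (S : Set F), O.valuation z = 1 ∧ y * z = x := by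
  classical
  let _ : Algebra F₀[X] F := (aeval eps : F₀[X] →ₐ[F₀] F).toRingHom.toAlgebra
  have halgmap : ∀ p : F₀[X], algebraMap F₀[X] F p = aeval eps p := fun _ => rfl
  have hinj : Function.Injective (algebraMap F₀[X] F) := by
    rw [injective_iff_map_eq_zero]
    intro p hp
    by_contra h0
    obtain ⟨j, w, hw, hw1⟩ := h.aeval_form p.natDegree p le_rfl h0
    rw [halgmap, hw] at hp
    rcases mul_eq_zero.1 hp with h2 | h2
    · exact pow_ne_zero j h.ne h2
    · rw [h2] at hw1
      simp at hw1
  have hfs : FaithfulSMul F₀[X] F := (faithfulSMul_iff_algebraMap_injective _ _).2 hinj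
  let _ : Algebra (FractionRing F₀[X]) F := FractionRing.liftAlgebra F₀[X] F
  have hst : IsScalarTower F₀[X] (FractionRing F₀[X]) F := FractionRing.isScalarTower_liftAlgebra F₀[X] F
  have halg1 : Algebra.IsAlgebraic F₀[X] F := by
    constructor
    intro x
    obtain ⟨p, hp0, hp⟩ := h.exists_rel x
    exact ⟨p, hp0, hp⟩
  have halg2 : Algebra.IsAlgebraic (FractionRing F₀[X]) F :=
    (IsFractionRing.comap_isAlgebraic_iff (A := F₀[X]) (K := FractionRing F₀[X]) (C := F)).1 halg1
  let M : IntermediateField (FractionRing F₀[X]) F := IntermediateField.adjoin (FractionRing F₀[X]) {b}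
  have hbM : b ∈ M := IntermediateField.mem_adjoin_simple_self _ b
  have hfin : FiniteDimensional (FractionRing F₀[X]) M :=
    IntermediateField.adjoin.finiteDimensional (halg2.isAlgebraic b).isIntegral
  have hchar : CharZero (FractionRing F₀[X]) := charZero_of_injective_algebraMap
    (IsFractionRing.injective F₀[X] (FractionRing F₀[X]))
  have hsep : Algebra.IsSeparable (FractionRing F₀[X]) M := inferInstance
  have hB1 : IsDedekindDomain (integralClosure F₀[X] M) := integralClosure.isDedekindDomain F₀[X] (FractionRing F₀[X]) M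
  have hB2 : Module.Finite F₀[X] (integralClosure F₀[X] M) :=
    IsIntegralClosure.finite F₀[X] (FractionRing F₀[X]) M (integralClosure F₀[X] M)
  have hB3 : IsFractionRing (integralClosure F₀[X] M) M :=
    integralClosure.isFractionRing_of_finite_extension (FractionRing F₀[X]) M
  have hst2 : IsScalarTower F₀[X] M F := IsScalarTower.of_algebraMap_eq (fun r => rfl)
  have hBO : ∀ y : integralClosure F₀[X] M, ((y : M) : F) ∈ O := by
    intro y
    have h1 : IsIntegral F₀[X] ((y : M) : F) := y.2.map (IsScalarTower.toAlgHom F₀[X] M F)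
    refine kb_int (fun r => ?_) h1
    rw [halgmap]
    exact h.aeval_mem r
  let φ : integralClosure F₀[X] M →+* O :=
    { toFun := fun y => ⟨((y : M) : F), hBO y⟩
      map_one' := rfl
      map_mul' := fun _ _ => rfl
      map_zero' := rfl
      map_add' := fun _ _ => rfl }
  let q : Ideal (integralClosure F₀[X] M) := (IsLocalRing.maximalIdeal O).comap φ
  have hqp : q.IsPrime := Ideal.comap_isPrime φ _
  have hqmem : ∀ y : integralClosure F₀[X] M, y ∈ q ↔ O.valuation ((y : M) : F) < 1 := by
    intro y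
    rw [Ideal.mem_comap, ValuationSubring.valuation_lt_one_iff]
    exact Iff.rfl
  have hepsM : ((algebraMap F₀[X] M X : M) : F) = eps := by
    have h1 : ((algebraMap F₀[X] M X : M) : F) = algebraMap F₀[X] F X := rfl
    rw [h1, halgmap, aeval_X]
  have hF₀M : ∀ a : F₀, algebraMap F₀ F a ∈ M := by
    intro a
    have h1 := M.algebraMap_mem (algebraMap F₀[X] (FractionRing F₀[X]) (C a))
    rw [← IsScalarTower.algebraMap_apply, halgmap, aeval_C] at h1
    exact h1
  have hepsMem : eps ∈ M := by
    have h1 := M.algebraMap_mem (algebraMap F₀[X] (FractionRing F₀[X]) X)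
    rw [← IsScalarTower.algebraMap_apply, halgmap, aeval_X] at h1
    exact h1
  have hq : q ≠ ⊥ := by
    intro h0
    have h1 : algebraMap F₀[X] (integralClosure F₀[X] M) X ∈ q := by
      rw [hqmem]
      have h2 : (((algebraMap F₀[X] (integralClosure F₀[X] M) X : integralClosure F₀[X] M) : M) : F) =
          ((algebraMap F₀[X] M X : M) : F) := rfl
      rw [h2, hepsM]
      exact h.lt
    rw [h0, Ideal.mem_bot] at h1
    have h2 := congrArg (fun y : integralClosure F₀[X] M => ((y : M) : F)) h1
    have h3 : (((algebraMap F₀[X] (integralClosure F₀[X] M) X : integralClosure F₀[X] M) : M) : F) = eps := by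
      have h4 : (((algebraMap F₀[X] (integralClosure F₀[X] M) X : integralClosure F₀[X] M) : M) : F) =
          ((algebraMap F₀[X] M X : M) : F) := rfl
      rw [h4, hepsM]
    exact h.ne (h3.symm.trans h2)
  -- the valuation ring of `M`
  let V : Subring F := O.toSubring ⊓ M.toSubalgebra.toSubring
  have hVmem : ∀ y : F, y ∈ V ↔ y ∈ O ∧ y ∈ M := fun y => Iff.rfl
  have hfrac : ∀ y ∈ V, ∃ x z : integralClosure F₀[X] M, z ∉ q ∧ y * ((z : M) : F) = ((x : M) : F) := by
    intro y hy
    obtain ⟨hyO, hyM⟩ := (hVmem y).1 hy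
    by_cases hy0 : y = 0
    · refine ⟨0, 1, ?_, ?_⟩
      · rw [hqmem]
        have h2 : (((1 : integralClosure F₀[X] M) : M) : F) = 1 := rfl
        rw [h2, map_one]
        exact lt_irrefl _
      · rw [hy0, zero_mul]
        rfl
    rcases kb_frac q hq (⟨y, hyM⟩ : M) with ⟨x, z, hz, hxz⟩ | ⟨x, z, hz, hxz⟩
    · exact ⟨x, z, hz, congrArg (fun y : M => (y : F)) hxz⟩
    · have h1 : y⁻¹ * ((z : M) : F) = ((x : M) : F) := congrArg (fun y : M => (y : F)) hxz
      have h2 : y * ((x : M) : F) = ((z : M) : F) := by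
        rw [← h1, ← mul_assoc, mul_inv_cancel₀ hy0, one_mul]
      refine ⟨z, x, ?_, h2⟩
      intro hx
      rw [hqmem] at hx hz
      have h3 := congrArg O.valuation h2
      rw [map_mul] at h3
      have h4 : O.valuation y * O.valuation ((x : M) : F) < 1 :=
        (mul_le_of_le_one_left' ((O.valuation_le_one_iff _).2 hyO)).trans_lt hx
      rw [h3] at h4
      exact hz h4
  let ψ : integralClosure F₀[X] M →+* V :=
    { toFun := fun y => ⟨((y : M) : F), (hVmem _).2 ⟨hBO y, (y : M).2⟩⟩
      map_one' := rfl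
      map_mul' := fun _ _ => rfl
      map_zero' := rfl
      map_add' := fun _ _ => rfl }
  let _ : Algebra (integralClosure F₀[X] M) V := ψ.toAlgebra
  have hunit : ∀ y : V, O.valuation (y : F) = 1 → IsUnit y := by
    intro y hy
    have hy0 : (y : F) ≠ 0 := by
      intro h0
      rw [h0] at hy
      simp at hy
    obtain ⟨hyO, hyM⟩ := (hVmem _).1 y.2
    have h1 : (y : F)⁻¹ ∈ V := by
      refine (hVmem _).2 ⟨(O.valuation_le_one_iff _).1 ?_, M.inv_mem hyM⟩
      rw [map_inv₀, hy, inv_one]
    exact IsUnit.of_mul_eq_one ⟨(y : F)⁻¹, h1⟩ (Subtype.ext (mul_inv_cancel₀ hy0))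
  have hunit' : ∀ y : V, IsUnit y → O.valuation (y : F) = 1 := by
    intro y hy
    obtain ⟨z, hz⟩ := hy.exists_right_inv
    have h1 : O.valuation (y : F) * O.valuation (z : F) = 1 := by
      rw [← map_mul]
      have h2 : (y : F) * (z : F) = 1 := congrArg (fun t : V => (t : F)) hz
      rw [h2, map_one]
    have h3 : O.valuation (y : F) ≤ 1 := (O.valuation_le_one_iff _).2 ((hVmem _).1 y.2).1
    have h4 : O.valuation (z : F) ≤ 1 := (O.valuation_le_one_iff _).2 ((hVmem _).1 z.2).1
    refine le_antisymm h3 ?_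
    rw [← h1]
    exact mul_le_of_le_one_right' h4
  have hloc : IsLocalization.AtPrime V q := by
    refine ⟨?_, ?_, ?_⟩
    · intro z
      have hz : ¬ O.valuation (((z : integralClosure F₀[X] M) : M) : F) < 1 := by
        rw [← hqmem]
        exact z.2
      exact hunit _ (le_antisymm ((O.valuation_le_one_iff _).2 (hBO _)) (not_lt.1 hz))
    · intro y
      obtain ⟨x, z, hz, hxz⟩ := hfrac y y.2
      exact ⟨(x, ⟨z, hz⟩), Subtype.ext hxz⟩
    · intro x y hxy
      refine ⟨1, ?_⟩
      have h1 : ((x : M) : F) = ((y : M) : F) := congrArg (fun t : V => (t : F)) hxy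
      rw [Subtype.ext (Subtype.ext h1)]
  have hdvr : IsDiscreteValuationRing V :=
    IsLocalization.AtPrime.isDiscreteValuationRing_of_dedekind_domain _ hq V
  obtain ⟨p, hp⟩ := IsDiscreteValuationRing.exists_irreducible V
  have hepsV : eps ∈ V := (hVmem _).2 ⟨(O.valuation_le_one_iff _).1 h.lt.le, hepsMem⟩
  have heps0 : (⟨eps, hepsV⟩ : V) ≠ 0 := fun h0 => h.ne (congrArg (fun t : V => (t : F)) h0)
  obtain ⟨e, u, hu⟩ := IsDiscreteValuationRing.associated_pow_irreducible heps0 hp
  obtain ⟨T, hT⟩ := hB2.fg_top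
  have hspan : ∀ x : integralClosure F₀[X] M, ((x : M) : F) ∈
      Submodule.span (Algebra.adjoin F₀ {eps}) (Finset.image (fun y : integralClosure F₀[X] M => ((y : M) : F)) T : Set F) := by
    intro x
    have hx : x ∈ Submodule.span F₀[X] (T : Set (integralClosure F₀[X] M)) := by
      rw [hT]
      trivial
    induction hx using Submodule.span_induction with
    | mem x hx => exact Submodule.subset_span (Finset.mem_coe.2 (Finset.mem_image_of_mem _ hx))
    | zero => exact Submodule.zero_mem _
    | add x y _ _ hx hy => exact Submodule.add_mem _ hx hy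
    | smul r x _ hx =>
      have h1 : (((r • x : integralClosure F₀[X] M) : M) : F) = (aeval eps r) * ((x : M) : F) := rfl
      rw [h1]
      exact Submodule.smul_mem _ (⟨aeval eps r, aeval_mem_adjoin_singleton F₀ eps⟩ : Algebra.adjoin F₀ {eps}) hx
  refine ⟨V, p, ((u⁻¹ : Vˣ) : V), e, Finset.image (fun y : integralClosure F₀[X] M => ((y : M) : F)) T, ?_, (hVmem _).2 ⟨hb, hbM⟩, fun y hy => ((hVmem _).1 hy).1,
    p.2, ((u⁻¹ : Vˣ) : V).2, hunit' _ (u⁻¹).isUnit, ?_, ?_, ?_, ?_⟩
  · intro a
    exact (hVmem _).2 ⟨h.mem a, hF₀M a⟩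
  · have h1 : (⟨eps, hepsV⟩ : V) = p ^ e * ((u⁻¹ : Vˣ) : V) := by
      rw [← hu, mul_assoc, Units.mul_inv, mul_one]
    exact congrArg (fun t : V => (t : F)) h1
  · intro y hy hy1
    have h1 : (⟨y, hy⟩ : V) ∈ IsLocalRing.maximalIdeal V := by
      rw [IsLocalRing.mem_maximalIdeal, mem_nonunits_iff]
      intro h2
      exact absurd (hunit' _ h2) (ne_of_lt hy1)
    rw [hp.maximalIdeal_eq, Ideal.mem_span_singleton] at h1
    obtain ⟨z, hz⟩ := h1
    exact ⟨z, z.2, congrArg (fun t : V => (t : F)) hz⟩
  · intro s hs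
    obtain ⟨y, _, rfl⟩ := Finset.mem_image.1 hs
    exact hBO y
  · intro y hy
    obtain ⟨x, z, hz, hxz⟩ := hfrac y hy
    refine ⟨_, hspan x, _, hspan z, ?_, hxz⟩
    rw [hqmem] at hz
    exact le_antisymm ((O.valuation_le_one_iff _).2 (hBO _)) (not_lt.1 hz)

end Pool.Agent.PHC
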