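import Pool.Agent.PHC.KeyB

/-!
# PHC/KeyC: the key lemma on derivations and places

A derivation `D` of `F` which maps `F₀` to `F₀` and kills `eps` preserves the valuation ring `O` of a place `eps = 0` and its maximal
ideal.
-/

set_option autoImplicit false

noncomputable section

open Polynomial

namespace Pool.Agent.PHC

universe u v

variable {F₀ : Type u} {F : Type v} [Field F₀] [Field F] [Algebra F₀ F] {O : ValuationSubring F} {eps : F}

private theorem kc_poly (h : IsPlace F₀ O eps) (D : Derivation ℤ F F)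
    (hD : ∀ a : F₀, ∃ a' : F₀, D (algebraMap F₀ F a) = algebraMap F₀ F a') (hDe : D eps = 0) (p : F₀[X]) :
    D (aeval eps p) ∈ O := by
  induction p using Polynomial.induction_on' with
  | add p q hp hq =>
    rw [map_add, map_add]
    exact add_mem hp hq
  | monomial n a =>
    obtain ⟨a', ha'⟩ := hD a
    rw [aeval_monomial, Derivation.leibniz, Derivation.leibniz_pow, hDe, ha']
    simp only [smul_zero, mul_zero, zero_add, smul_eq_mul]
    exact mul_mem (pow_mem ((O.valuation_le_one_iff _).1 h.lt.le) _) (h.mem _)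

private theorem kc_adj (h : IsPlace F₀ O eps) (D : Derivation ℤ F F)
    (hD : ∀ a : F₀, ∃ a' : F₀, D (algebraMap F₀ F a) = algebraMap F₀ F a') (hDe : D eps = 0)
    (y : Algebra.adjoin F₀ {eps}) : (y : F) ∈ O ∧ D (y : F) ∈ O := by
  have h1 : (y : F) ∈ (aeval eps : F₀[X] →ₐ[F₀] F).range := by
    rw [← Algebra.adjoin_singleton_eq_range_aeval]
    exact y.2
  obtain ⟨p, hp⟩ := h1
  have hp' : aeval eps p = (y : F) := hp
  rw [← hp']
  exact ⟨h.aeval_mem p, kc_poly h D hD hDe p⟩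

private theorem kc_span (h : IsPlace F₀ O eps) (D : Derivation ℤ F F)
    (hD : ∀ a : F₀, ∃ a' : F₀, D (algebraMap F₀ F a) = algebraMap F₀ F a') (hDe : D eps = 0) {S : Finset F}
    (hS : ∀ s ∈ S, s ∈ O) {N : ℕ} (hN : ∀ s ∈ S, eps ^ N * D s ∈ O) {x : F}
    (hx : x ∈ Submodule.span (Algebra.adjoin F₀ {eps}) (S : Set F)) : x ∈ O ∧ eps ^ N * D x ∈ O := by
  induction hx using Submodule.span_induction with
  | mem x hx => exact ⟨hS x hx, hN x hx⟩
  | zero =>
    rw [map_zero, mul_zero]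
    exact ⟨zero_mem _, zero_mem _⟩
  | add x y _ _ hx hy =>
    rw [map_add, mul_add]
    exact ⟨add_mem hx.1 hy.1, add_mem hx.2 hy.2⟩
  | smul r x _ hx =>
    have h1 := kc_adj h D hD hDe r
    have h2 : (r • x : F) = (r : F) * x := rfl
    rw [h2, Derivation.leibniz]
    refine ⟨mul_mem h1.1 hx.1, ?_⟩
    have h3 : eps ^ N * ((r : F) • D x + x • D (r : F)) = (r : F) * (eps ^ N * D x) + eps ^ N * (x * D (r : F)) := by
      simp only [smul_eq_mul]
      ring
    rw [h3]
    exact add_mem (mul_mem h1.1 hx.2) (mul_mem (pow_mem ((O.valuation_le_one_iff _).1 h.lt.le) _)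
      (mul_mem hx.1 h1.2))

private theorem kc_bound (h : IsPlace F₀ O eps) (D : F → F) (S : Finset F) : ∃ N : ℕ, ∀ s ∈ S, eps ^ N * D s ∈ O := by
  classical
  induction S using Finset.induction_on with
  | empty => exact ⟨0, fun s hs => absurd hs (Finset.notMem_empty s)⟩
  | insert a S _ ih =>
    obtain ⟨N, hN⟩ := ih
    obtain ⟨N', hN'⟩ := h.arch (D a)
    refine ⟨N + N', fun s hs => ?_⟩
    have he : ∀ n : ℕ, eps ^ n ∈ O := fun n => pow_mem ((O.valuation_le_one_iff _).1 h.lt.le) _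
    rcases Finset.mem_insert.1 hs with rfl | hs
    · rw [pow_add, mul_assoc]
      exact mul_mem (he _) hN'
    · rw [add_comm, pow_add, mul_assoc]
      exact mul_mem (he _) (hN s hs)

private theorem kc_inv {w : F} (hw : O.valuation w = 1) : w⁻¹ ∈ O := by
  rw [← O.valuation_le_one_iff, map_inv₀, hw, inv_one]

private theorem kc_main [CharZero F₀] [IsAlgClosed F₀] (h : IsPlace F₀ O eps) (D : Derivation ℤ F F)
    (hD : ∀ a : F₀, ∃ a' : F₀, D (algebraMap F₀ F a) = algebraMap F₀ F a') (hDe : D eps = 0) {x : F} (hx : x ∈ O) :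
    D x ∈ O ∧ (O.valuation x < 1 → O.valuation (D x) < 1) := by
  obtain ⟨V, p, w, e, S, hV0, hxV, hVO, hpV, hwV, hw1, hepw, hVm, hSO, hVS⟩ := h.exists_dvr hx
  obtain ⟨N, hN⟩ := kc_bound h D S
  have he0 : e ≠ 0 := by
    rintro rfl
    rw [pow_zero, one_mul] at hepw
    have h1 := h.lt
    rw [hepw, hw1] at h1
    exact lt_irrefl _ h1
  have hw0 : w ≠ 0 := by
    rintro rfl
    simp at hw1
  have hp0 : p ≠ 0 := by
    rintro rfl
    rw [zero_pow he0, zero_mul] at hepw
    exact h.ne hepw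
  have hp1 : O.valuation p < 1 := by
    refine lt_of_le_of_ne ((O.valuation_le_one_iff _).2 (hVO p hpV)) ?_
    intro h1
    have h2 := h.lt
    rw [hepw, map_mul, map_pow, h1, hw1, one_pow, one_mul] at h2
    exact lt_irrefl _ h2
  have hchar : CharZero F := charZero_of_injective_algebraMap (algebraMap F₀ F).injective
  have heF : (e : F) ≠ 0 := Nat.cast_ne_zero.2 he0
  have heO : (e : F)⁻¹ ∈ O := by
    have h1 := h.mem ((e : F₀)⁻¹)
    rw [map_inv₀, map_natCast] at h1
    exact h1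
  -- the derivative of the uniformizer
  have hDp : D p = -(p * ((e : F)⁻¹ * (w⁻¹ * D w))) := by
    have h1 : D eps = p ^ e * D w + w * (e * p ^ (e - 1) * D p) := by
      rw [hepw, Derivation.leibniz, Derivation.leibniz_pow]
      simp only [smul_eq_mul, nsmul_eq_mul]
      ring
    rw [hDe] at h1
    obtain ⟨e', rfl⟩ := Nat.exists_eq_succ_of_ne_zero he0
    have h2 : p ^ e' * (p * D w + w * ((e' + 1 : ℕ) * D p)) = 0 := by
      rw [h1]
      have h3 : e' + 1 - 1 = e' := rfl
      simp only [Nat.succ_eq_add_one, h3]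
      ring
    rcases mul_eq_zero.1 h2 with h3 | h3
    · exact absurd h3 (pow_ne_zero _ hp0)
    · have h4 : w * ((e' + 1 : ℕ) * D p) = -(p * D w) := by
        rw [eq_neg_iff_add_eq_zero, add_comm]
        exact h3
      have h5 : D p = ((e' + 1 : ℕ) : F)⁻¹ * (w⁻¹ * (w * ((e' + 1 : ℕ) * D p))) := by
        have heF' : ((e' + 1 : ℕ) : F) ≠ 0 := heF
        field_simp
      rw [h5, h4]
      ring
  -- boundedness
  have hbd : ∀ y ∈ V, eps ^ N * D y ∈ O := by
    intro y hy
    obtain ⟨x', hx', z, hz, hz1, hyz⟩ := hVS y hy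
    have h1 := kc_span h D hD hDe hSO hN hx'
    have h2 := kc_span h D hD hDe hSO hN hz
    have hz0 : z ≠ 0 := by
      rintro rfl
      simp at hz1
    have h3 : eps ^ N * D y = z⁻¹ * (eps ^ N * D x' - y * (eps ^ N * D z)) := by
      have h4 : D x' = y * D z + z * D y := by
        rw [← hyz, Derivation.leibniz]
        simp only [smul_eq_mul]
      rw [h4]
      field_simp
      ring
    rw [h3]
    exact mul_mem (kc_inv hz1) (sub_mem h1.2 (mul_mem (hVO y hy) h2.2))
  have hbd' : ∀ y ∈ V, p ^ (e * N) * D y ∈ O := by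
    intro y hy
    have h1 : p ^ (e * N) * D y = (w⁻¹) ^ N * (eps ^ N * D y) := by
      have h2 : w⁻¹ ^ N * w ^ N = 1 := by rw [← mul_pow, inv_mul_cancel₀ hw0, one_pow]
      rw [hepw, mul_pow, ← pow_mul]
      calc p ^ (e * N) * D y = (w⁻¹ ^ N * w ^ N) * (p ^ (e * N) * D y) := by rw [h2, one_mul]
        _ = _ := by ring
    rw [h1]
    exact mul_mem (pow_mem (kc_inv hw1) _) (hbd y hy)
  -- descent
  have hstep : ∀ c : ℕ, (∀ y ∈ V, p ^ (c + 1) * D y ∈ O) → ∀ y ∈ V, p ^ c * D y ∈ O := by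
    intro c hc y hy
    obtain ⟨a, ha⟩ := h.residue (hVO y hy)
    obtain ⟨a', ha'⟩ := hD a
    obtain ⟨z, hz, hyz⟩ := hVm _ (sub_mem hy (hV0 a)) ha
    have h1 : D y = algebraMap F₀ F a' + (z * D p + p * D z) := by
      have h2 : y = algebraMap F₀ F a + p * z := by
        rw [← hyz]
        ring
      rw [h2, map_add, ha', Derivation.leibniz]
      simp only [smul_eq_mul]
      ring
    have h3 : p ^ c * D y = p ^ c * algebraMap F₀ F a' - z * ((e : F)⁻¹ * (w⁻¹ * (p ^ (c + 1) * D w))) +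
        p ^ (c + 1) * D z := by
      rw [h1, hDp]
      ring
    rw [h3]
    exact add_mem (sub_mem (mul_mem (pow_mem (hVO p hpV) _) (h.mem _)) (mul_mem (hVO z hz) (mul_mem heO
      (mul_mem (kc_inv hw1) (hc w hwV))))) (hc z hz)
  have hall : ∀ c : ℕ, (∀ y ∈ V, p ^ c * D y ∈ O) → ∀ y ∈ V, D y ∈ O := by
    intro c
    induction c with
    | zero =>
      intro hc y hy
      have h1 := hc y hy
      rwa [pow_zero, one_mul] at h1
    | succ c ih => exact fun hc => ih (hstep c hc)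
  have hfin := hall _ hbd'
  refine ⟨hfin x hxV, fun hx1 => ?_⟩
  obtain ⟨z, hz, hxz⟩ := hVm x hxV hx1
  have h1 : D x = p * (D z - z * ((e : F)⁻¹ * (w⁻¹ * D w))) := by
    rw [hxz, Derivation.leibniz, hDp]
    simp only [smul_eq_mul]
    ring
  have h2 : D z - z * ((e : F)⁻¹ * (w⁻¹ * D w)) ∈ O :=
    sub_mem (hfin z hz) (mul_mem (hVO z hz) (mul_mem heO (mul_mem (kc_inv hw1) (hfin w hwV))))
  rw [h1, map_mul, mul_comm]
  exact (mul_le_of_le_one_left' ((O.valuation_le_one_iff _).2 h2)).trans_lt hp1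

/-- KEY LEMMA -/
theorem IsPlace.derivation [CharZero F₀] [IsAlgClosed F₀] (h : IsPlace F₀ O eps) (D : Derivation ℤ F F)
    (hD : ∀ a : F₀, ∃ a' : F₀, D (algebraMap F₀ F a) = algebraMap F₀ F a') (hDe : D eps = 0) :
    (∀ x ∈ O, D x ∈ O) ∧ ∀ x, O.valuation x < 1 → O.valuation (D x) < 1 :=
  ⟨fun _ hx => (kc_main h D hD hDe hx).1,
    fun _ hx => (kc_main h D hD hDe ((O.valuation_le_one_iff _).1 hx.le)).2 hx⟩

end Pool.Agent.PHC
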