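import Pool.Agent.PHC.KeyC

set_option autoImplicit false

open scoped IntermediateField.algebraAdjoinAdjoin

namespace Pool.Agent.PHC

/-- the key lemma in the form of `VPH.key` -/
theorem key_form {F₀ F : Type} [Field F₀] [Field F] [Algebra F₀ F] [IsAlgClosed F₀] [CharZero F₀] (ε : F)
    (hε : Transcendental F₀ ε) (hF : ∀ y : F, IsAlgebraic (IntermediateField.adjoin F₀ {ε}) y)
    (V : ValuationSubring F) (h0 : ∀ x : F₀, algebraMap F₀ F x ∈ V) (h1 : V.valuation ε < 1)
    (D : Derivation ℤ F F)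
    (hD : ∀ x : F₀, ∃ y : F₀, D (algebraMap F₀ F x) = algebraMap F₀ F y) (hDε : D ε = 0) :
    (∀ x ∈ V, D x ∈ V) ∧ ∀ x, V.valuation x < 1 → V.valuation (D x) < 1 := by
  have hne : ε ≠ 0 := by
    rintro rfl
    exact hε isAlgebraic_zero
  have halg : Algebra.IsAlgebraic (Algebra.adjoin F₀ {ε}) F := by
    rw [IsFractionRing.comap_isAlgebraic_iff (A := Algebra.adjoin F₀ {ε}) (K := IntermediateField.adjoin F₀ {ε})
      (C := F)]
    exact ⟨hF⟩
  exact IsPlace.derivation ⟨h0, hne, h1, halg⟩ D hD hDε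

end Pool.Agent.PHC
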