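import Mathlib

/-!
# PHC/Krull: a divisor through a given point

For a finitely generated domain `A` over a field `k`, a nonzero element `p` and a prime ideal `Q` containing `p` there is a prime
ideal `P` with `p ∈ P ≤ Q` such that the transcendence degree of `A / P` is one less than that of `A`.
-/

set_option autoImplicit false

noncomputable section

open MvPolynomial

namespace Pool.Agent.PHC

universe u

private theorem alg_adjoinRoot {R : Type u} [CommRing R] [IsDomain R] (g : Polynomial R) (hg : g ≠ 0)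
    [IsDomain (AdjoinRoot g)] : Algebra.IsAlgebraic R (AdjoinRoot g) := by
  constructor
  intro x
  have h1 : Algebra.adjoin R {AdjoinRoot.root g} ≤ Subalgebra.algebraicClosure R (AdjoinRoot g) := by
    rw [Algebra.adjoin_le_iff, Set.singleton_subset_iff]
    show IsAlgebraic R (AdjoinRoot.root g)
    refine ⟨g, hg, ?_⟩
    rw [Polynomial.aeval_def, AdjoinRoot.algebraMap_eq]
    exact AdjoinRoot.eval₂_root g
  rw [AdjoinRoot.adjoinRoot_eq_top] at h1
  exact h1 (Algebra.mem_top)

private theorem of_inj {R : Type u} [CommRing R] [IsDomain R] (g : Polynomial R) (hg : 0 < g.natDegree) :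
    Function.Injective (algebraMap R (AdjoinRoot g)) := by
  rw [injective_iff_map_eq_zero]
  intro r hr
  rw [AdjoinRoot.algebraMap_eq, ← AdjoinRoot.mk_C, AdjoinRoot.mk_eq_zero] at hr
  by_contra h0
  have h1 := Polynomial.natDegree_le_of_dvd hr (by rwa [Ne, Polynomial.C_eq_zero])
  rw [Polynomial.natDegree_C] at h1
  omega

private theorem trdeg_adjoinRoot {k R : Type u} [Field k] [CommRing R] [IsDomain R] [Algebra k R] (g : Polynomial R)
    (hg : 0 < g.natDegree) [IsDomain (AdjoinRoot g)] : Algebra.trdeg k (AdjoinRoot g) = Algebra.trdeg k R := by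
  have h0 : g ≠ 0 := by
    rintro rfl
    simp at hg
  have h1 := alg_adjoinRoot g h0
  have h2 : FaithfulSMul R (AdjoinRoot g) := (faithfulSMul_iff_algebraMap_injective R _).2 (of_inj g hg)
  have h3 : FaithfulSMul k R := inferInstance
  rw [← trdeg_add_eq k R (A := AdjoinRoot g), trdeg_eq_zero (R := R), add_zero]

private theorem trdeg_mv {k : Type u} [Field k] {n : ℕ} (g : MvPolynomial (Fin n) k) (hg : Prime g) :
    Algebra.trdeg k (MvPolynomial (Fin n) k ⧸ Ideal.span {g}) + 1 = n := by
  obtain ⟨i, hi⟩ : ∃ i, 0 < g.degreeOf i := by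
    by_contra hc
    push Not at hc
    have h1 : g.vars = ∅ := by
      rw [Finset.eq_empty_iff_forall_notMem]
      intro i hi
      exact (mem_vars_iff_degreeOf_ne_zero.1 hi) (Nat.le_zero.1 (hc i))
    rw [vars_eq_empty_iff_eq_C] at h1
    refine hg.not_isUnit ?_
    rw [h1]
    refine (IsUnit.mk0 _ ?_).map C
    intro h2
    rw [h2, map_zero] at h1
    exact hg.ne_zero h1
  let e : MvPolynomial (Fin n) k ≃ₐ[k] Polynomial (MvPolynomial {b // b ≠ i} k) :=
    (renameEquiv k (Equiv.optionSubtypeNe i).symm).trans (optionEquivLeft k _)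
  have hdeg : (e g).natDegree = g.degreeOf i := (degreeOf_eq_natDegree i g).symm
  have e' : (MvPolynomial (Fin n) k ⧸ Ideal.span {g}) ≃ₐ[k] AdjoinRoot (e g) :=
    Ideal.quotientEquivAlg (Ideal.span {g}) (Ideal.span {e g}) e (by rw [Ideal.map_span, Set.image_singleton]; rfl)
  have hp : Prime (e g) := (MulEquiv.prime_iff e).2 hg
  have h2 : IsDomain (AdjoinRoot (e g)) := AdjoinRoot.isDomain_of_prime hp
  rw [e'.trdeg_eq, trdeg_adjoinRoot (e g) (by rw [hdeg]; exact hi), MvPolynomial.trdeg_of_isDomain]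
  have hcard : Fintype.card {b : Fin n // b ≠ i} + 1 = n := by
    have h3 := Fintype.card_congr (Equiv.optionSubtypeNe i)
    rw [Fintype.card_option, Fintype.card_fin] at h3
    exact h3
  rw [Cardinal.mk_fintype, Cardinal.lift_natCast]
  exact_mod_cast hcard

/-- A divisor `p = 0` of an affine variety has through each of its points a component of codimension one. -/
theorem krull_trdeg {k A : Type u} [Field k] [CommRing A] [IsDomain A] [Algebra k A] [Algebra.FiniteType k A]
    {p : A} (hp : p ≠ 0) (Q : Ideal A) [Q.IsPrime] (hpQ : p ∈ Q) :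
    ∃ P : Ideal A, P.IsPrime ∧ p ∈ P ∧ P ≤ Q ∧ Algebra.trdeg k (A ⧸ P) + 1 = Algebra.trdeg k A := by
  obtain ⟨n, f, hf, hint⟩ := exists_integral_inj_algHom_of_fg k A
  let _ : Algebra (MvPolynomial (Fin n) k) A := f.toRingHom.toAlgebra
  have hst : IsScalarTower k (MvPolynomial (Fin n) k) A := .of_algebraMap_eq (fun r => (f.commutes r).symm)
  have hfs : FaithfulSMul (MvPolynomial (Fin n) k) A := (faithfulSMul_iff_algebraMap_injective _ _).2 hf
  have hin : Algebra.IsIntegral (MvPolynomial (Fin n) k) A := ⟨hint⟩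
  have hno : IsNoetherianRing A := Algebra.FiniteType.isNoetherianRing k A
  have hA : Algebra.trdeg k A = n := by
    rw [← trdeg_add_eq k (MvPolynomial (Fin n) k) (A := A), trdeg_eq_zero (R := MvPolynomial (Fin n) k), add_zero,
      MvPolynomial.trdeg_of_isDomain]
    simp
  obtain ⟨P, hP, hPQ⟩ := Ideal.exists_minimalPrimes_le (I := Ideal.span {p}) (J := Q)
    ((Ideal.span_singleton_le_iff_mem _).2 hpQ)
  have hPp : P.IsPrime := hP.1.1
  have hpP : p ∈ P := hP.1.2 (Ideal.mem_span_singleton_self p)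
  have hh : P.height ≤ 1 := Ideal.height_le_one_of_isPrincipal_of_mem_minimalPrimes _ P hP
  refine ⟨P, hPp, hpP, hPQ, ?_⟩
  have hP₀ : P.under (MvPolynomial (Fin n) k) ≠ ⊥ :=
    Ideal.comap_ne_bot_of_integral_mem hp hpP (Algebra.IsIntegral.isIntegral p)
  have hP₀p : (P.under (MvPolynomial (Fin n) k)).IsPrime := inferInstance
  obtain ⟨g, hg, hgp⟩ := hP₀p.exists_mem_prime_of_ne_bot hP₀
  have hPg : P.under (MvPolynomial (Fin n) k) = Ideal.span {g} := by
    by_contra hne
    have hlt : Ideal.span {g} < P.under (MvPolynomial (Fin n) k) :=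
      lt_of_le_of_ne ((Ideal.span_singleton_le_iff_mem _).2 hg) (Ne.symm hne)
    have h1 : (Ideal.span {g}).IsPrime := (Ideal.span_singleton_prime hgp.ne_zero).2 hgp
    obtain ⟨P', hP', hP'p, hlies⟩ := Ideal.exists_ideal_lt_liesOver_of_lt P hlt
    have h2 : ⊥ < P' := by
      rw [bot_lt_iff_ne_bot]
      rintro rfl
      have h3 : g ∈ (⊥ : Ideal A).under (MvPolynomial (Fin n) k) := by
        rw [← hlies.over]
        exact Ideal.mem_span_singleton_self g
      rw [Ideal.mem_comap, Ideal.mem_bot] at h3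
      refine hgp.ne_zero (hf ?_)
      rw [map_zero]
      exact h3
    have h4 := Ideal.height_add_one_le_of_lt_of_isPrime h2
    have h5 := Ideal.height_add_one_le_of_lt_of_isPrime hP'
    rw [Ideal.height_bot, zero_add] at h4
    have h6 : (1 : ℕ∞) + 1 ≤ 1 := (add_le_add_left h4 1).trans (h5.trans hh)
    exact absurd h6 (by decide)
  have hlo : P.LiesOver (P.under (MvPolynomial (Fin n) k)) := inferInstance
  have h1 : Algebra.trdeg k (A ⧸ P) = Algebra.trdeg k (MvPolynomial (Fin n) k ⧸ P.under (MvPolynomial (Fin n) k)) := by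
    have h2 : Algebra.IsIntegral (MvPolynomial (Fin n) k ⧸ P.under (MvPolynomial (Fin n) k)) (A ⧸ P) :=
      Ideal.Quotient.algebra_isIntegral_of_liesOver P _
    have h3 : FaithfulSMul (MvPolynomial (Fin n) k ⧸ P.under (MvPolynomial (Fin n) k)) (A ⧸ P) := inferInstance
    rw [← trdeg_add_eq k (MvPolynomial (Fin n) k ⧸ P.under (MvPolynomial (Fin n) k)) (A := A ⧸ P),
      trdeg_eq_zero (R := MvPolynomial (Fin n) k ⧸ P.under (MvPolynomial (Fin n) k)), add_zero]
  rw [h1, hA]
  have h7 : (MvPolynomial (Fin n) k ⧸ P.under (MvPolynomial (Fin n) k)) ≃ₐ[k] (MvPolynomial (Fin n) k ⧸ Ideal.span {g}) :=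
    Ideal.quotientEquivAlgOfEq k hPg
  rw [h7.trdeg_eq, trdeg_mv g hgp]

end Pool.Agent.PHC
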